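import Pool.Agent.U562.GE.Gen

/-!
# The Gehring exponent of reverse Hölder weights

`X d` is `ℝᵈ`, `cube a l` the closed cube with lower corner `a` and side `l`, `avg Q f` the average
of the nonnegative function `f` over `Q`, and `rhConst w p` the reverse Hölder constant `[w]_{RH_p}`.
-/

set_option autoImplicit false

open MeasureTheory
open scoped ENNReal

namespace Pool.Agent.Results.MP_edcda5_an.GehringExponent

open Pool.Agent.U562.GE

/-- For every `d ≥ 1` and `1 < p < ∞` there is `c > 0`, namely `c = (p - 1) / 2^(d + 2p + 2)`, such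
that for every `w ∈ RH_p`, every cube `Q` and every `0 < ε ≤ c [w]_{RH_p}^(-p)`,
`⟨w^(p+ε)⟩_Q ≤ 2 [w]_{RH_p}^(p+ε) ⟨w⟩_Q^(p+ε)`. -/
theorem result (d : ℕ) (hd : 1 ≤ d) (p : ℝ) (hp : 1 < p) :
    ∃ c : ℝ, c = (p - 1) / 2 ^ ((d : ℝ) + 2 * p + 2) ∧ 0 < c ∧
      ∀ w : X d → ℝ, (∀ x, 0 < w x) → LocallyIntegrable w → rhConst w p ≠ ∞ →
        ∀ (a : X d) (l : ℝ), 0 < l → ∀ ε : ℝ, 0 < ε → ε ≤ c * (rhConst w p).toReal ^ (-p) →
          avg (cube a l) (fun x => ENNReal.ofReal (w x ^ (p + ε)))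
            ≤ 2 * rhConst w p ^ (p + ε)
              * avg (cube a l) (fun x => ENNReal.ofReal (w x)) ^ (p + ε) := by
  refine ⟨_, rfl, ?_, fun w hpos hloc hfin a l hl ε hε hle => main hp hpos hloc hfin a hl hε hle⟩
  have : 0 < p - 1 := by linarith
  positivity

end Pool.Agent.Results.MP_edcda5_an.GehringExponent
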